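import Pool.Agent.Lib.P90b739.Numeric

set_option autoImplicit false

/-!
# Underdog Maker and 3-uniform cliques

Proof overview.  Give a triple weight 3 if it is Maker's, 1 if unclaimed, 0 if Breaker's.
For a set `S` of `q` vertices let `w S` be the product of the weights of its triples.  For `Z ⊆ S`
and a vertex `v` let `d Z v` be the product of the weights of the triples `{a, b, v}`, `a, b ∈ Z`.
The potential is `∑ w S * max (1 - lam * ∑ Z ⊆ S, ∏ v ∉ S, (1 + d Z v / N)) 0`.
For the sets `S` with a positive contribution all one-vertex extension counts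
`∑ v, d Z v` (`Z ⊆ S`) are at most `7 * 2 ^ q * N`; hence the total weight of those `S` that contain
a given 4-set is at most `81 * (7 * 2 ^ q * N) ^ (q - 4)`, and similarly for the other second order
terms.  If Maker always kills the worst choice of Breaker, i.e. claims the triple whose loss would
hurt most, the potential drops by less than `1 / N ^ 3` of its starting value in each turn,
as soon as `N ≥ 2 ^ (10 * q ^ 2)`.  A positive potential at the end gives the clique.
-/

namespace Pool.Agent.Results.MP_90b739_co.UnderdogClique

/-- The board of the game: the triples (3-element subsets) of `Fin N`. -/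
abbrev Triple (N : ℕ) : Type := {e : Finset (Fin N) // e.card = 3}

/-- In the (1:2) game on the triples of an `N`-element set, Maker (who moves first and claims one
triple per turn, while Breaker claims two) has a strategy which guarantees that at the end he owns
all triples contained in some `q`-element set `S`.

A play is an enumeration `p 0, p 1, p 2, ...` of the whole board in the order in which the triples
are claimed: Maker claims `p j` for `j` divisible by 3, and Breaker claims all the others (so two
in each of his turns, except that his last turn may be shorter since the board is used up).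
A strategy of Maker is a function `σ` from histories (lists of the triples claimed so far, in
order) to triples; it always names an unclaimed triple as long as there is one, and it may be
played against every way in which Breaker can claim his triples. -/
def MakerCanOccupy (N q : ℕ) : Prop :=
  ∃ σ : List (Triple N) → Triple N,
    (∀ h : List (Triple N), h.Nodup → h.length < Fintype.card (Triple N) → σ h ∉ h) ∧
    ∀ p : Fin (Fintype.card (Triple N)) ≃ Triple N,
      (∀ j, j.val % 3 = 0 → p j = σ ((List.ofFn p).take j.val)) →
      ∃ S : Finset (Fin N), S.card = q ∧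
        ∀ e : Triple N, e.val ⊆ S → ∃ j, j.val % 3 = 0 ∧ p j = e

lemma makerCanOccupy_of_large {N q : ℕ} (hq : 4 ≤ q) (hN : 2 ^ (10 * q ^ 2) ≤ N) :
    MakerCanOccupy N q := by
  classical
  have hN3 : 3 ≤ N := by
    refine le_trans ?_ hN
    calc 3 ≤ 2 ^ 2 := by norm_num
      _ ≤ 2 ^ (10 * q ^ 2) := Nat.pow_le_pow_right (by norm_num) (by nlinarith)
  obtain ⟨s, hs⟩ : ∃ s : Finset (Fin N), s.card = 3 := by
    obtain ⟨s, _, hs⟩ := Finset.exists_subset_card_eq (s := (Finset.univ : Finset (Fin N)))
      (n := 3) (by simpa using hN3)
    exact ⟨s, hs⟩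
  let x0 : Triple N := ⟨s, hs⟩
  refine ⟨Pool.Agent.Lib.P90b739.sig N q (1 / (6 * 2 ^ q)) (1 / N) x0, ?_, ?_⟩
  · intro h _ hlen
    refine (Pool.Agent.Lib.P90b739.sig_spec ?_).1
    by_contra hcon
    push Not at hcon
    have h1 : (Finset.univ : Finset (Triple N)) ⊆ h.toFinset := fun x _ =>
      List.mem_toFinset.2 (hcon x)
    have h2 := Finset.card_le_card h1
    have h3 := h.toFinset_card_le
    rw [Finset.card_univ] at h2
    omega
  · intro p hp
    exact Pool.Agent.Lib.P90b739.finite_version hq hN x0 rfl p hp

/-- Q1 has a positive answer: there is a constant `c > 0` such that for all sufficiently large `N`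
Maker, playing the (1:2) game on the triples of `[N]`, has a strategy which guarantees that he
occupies a sub-clique on `q` vertices for some `q ≥ c √(log N)`. -/
theorem result :
    ∃ c : ℝ, 0 < c ∧ ∃ N₀ : ℕ, ∀ N : ℕ, N₀ ≤ N →
      ∃ q : ℕ, 3 ≤ q ∧ c * √(Real.log N) ≤ q ∧ MakerCanOccupy N q := by
  refine ⟨1 / 4, by norm_num, ⌈Real.exp 225⌉₊, fun N hN => ?_⟩
  have hN1 : Real.exp 225 ≤ N := (Nat.le_ceil _).trans (by exact_mod_cast hN)
  have hNpos : (0:ℝ) < N := lt_of_lt_of_le (Real.exp_pos _) hN1
  have hlog : 225 ≤ Real.log N := by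
    rw [← Real.log_exp 225]
    exact Real.log_le_log (Real.exp_pos _) hN1
  set L := Real.log N with hL
  have hs15 : 15 ≤ √L := by
    rw [show (15:ℝ) = √225 by
      rw [show (225:ℝ) = 15 ^ 2 by norm_num, Real.sqrt_sq (by norm_num)]]
    exact Real.sqrt_le_sqrt hlog
  have hs0 : 0 ≤ √L / 3 := by positivity
  refine ⟨⌊√L / 3⌋₊, ?_, ?_, ?_⟩
  · have : (3:ℝ) ≤ √L / 3 := by linarith
    exact Nat.le_floor (by exact_mod_cast this)
  · have := (Nat.lt_floor_add_one (√L / 3)).le
    linarith
  · apply makerCanOccupy_of_large
    · have : (4:ℝ) ≤ √L / 3 := by linarith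
      exact Nat.le_floor (by exact_mod_cast this)
    · have hfl := Nat.floor_le hs0
      set q := ⌊√L / 3⌋₊ with hq
      have hq0 : (0:ℝ) ≤ q := by positivity
      have h1 : (q:ℝ) ^ 2 ≤ L / 9 := by
        calc (q:ℝ) ^ 2 ≤ (√L / 3) ^ 2 := pow_le_pow_left₀ hq0 hfl 2
          _ = L / 9 := by rw [div_pow, Real.sq_sqrt (by linarith)]; norm_num
      have h2 : ((10 * q ^ 2 : ℕ) : ℝ) * Real.log 2 ≤ L := by
        have h3 : Real.log 2 < 0.6931471808 := Real.log_two_lt_d9
        have h4 : 0 < Real.log 2 := Real.log_pos (by norm_num)
        push_cast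
        have h5 : 10 * (q:ℝ) ^ 2 * Real.log 2 ≤ 10 * (L / 9) * Real.log 2 := by
          refine mul_le_mul_of_nonneg_right ?_ h4.le
          linarith
        have h6 : 10 * (L / 9) * Real.log 2 ≤ 10 * (L / 9) * 0.9 := by
          refine mul_le_mul_of_nonneg_left (by linarith) (by positivity)
        linarith
      have h3 : Real.log ((2:ℝ) ^ (10 * q ^ 2)) ≤ Real.log N := by
        rw [Real.log_pow]; exact h2
      have h4 : ((2:ℝ) ^ (10 * q ^ 2)) ≤ N :=
        (Real.log_le_log_iff (by positivity) hNpos).1 h3
      exact_mod_cast h4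

end Pool.Agent.Results.MP_90b739_co.UnderdogClique
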